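import Mathlib

/-! Definitions for sublinearly Morse rays. -/

set_option autoImplicit false

namespace R467.KM

open Set Filter Topology

variable {X : Type*} [MetricSpace X]

/-- Every two points are joined by a geodesic segment. -/
def GeodesicSpace (X : Type*) [MetricSpace X] : Prop :=
  ∀ x y : X, ∃ g : ℝ → X, g 0 = x ∧ g (dist x y) = y ∧
    ∀ u ∈ Icc 0 (dist x y), ∀ v ∈ Icc 0 (dist x y), dist (g u) (g v) = |u - v|

/-- `b`, restricted to `[0, ∞)`, is an isometric embedding. -/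
def IsRay (b : ℝ → X) : Prop := ∀ s t : ℝ, 0 ≤ s → 0 ≤ t → dist (b s) (b t) = |s - t|

/-- `κ : [0, ∞) → [1, ∞)` monotone, concave and sublinear. -/
structure Gauge (κ : ℝ → ℝ) : Prop where
  one_le : ∀ t : ℝ, 0 ≤ t → 1 ≤ κ t
  mono : MonotoneOn κ (Ici 0)
  concave : ConcaveOn ℝ (Ici 0) κ
  sublinear : Tendsto (fun t => κ t / t) atTop (𝓝 0)

/-- `β : [s, t] → X` is a `(q, Q)`-quasi-geodesic. -/
def IsQuasiGeodesic (q Q : ℝ) (β : ℝ → X) (s t : ℝ) : Prop :=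
  ∀ u ∈ Icc s t, ∀ v ∈ Icc s t,
    |u - v| / q - Q ≤ dist (β u) (β v) ∧ dist (β u) (β v) ≤ q * |u - v| + Q

/-- the ray `b` is `κ`-Morse (the norm is the distance to `b 0`). -/
def IsMorse (κ : ℝ → ℝ) (b : ℝ → X) : Prop :=
  ∃ m : ℝ → ℝ → ℝ, (∀ q Q, 0 ≤ m q Q) ∧ ∀ q Q : ℝ, 1 ≤ q → 0 ≤ Q → ∀ (β : ℝ → X) (s t : ℝ),
    s ≤ t → IsQuasiGeodesic q Q β s t → β s ∈ b '' Ici 0 → β t ∈ b '' Ici 0 →
      ∀ u ∈ Icc s t, Metric.infDist (β u) (b '' Ici 0) ≤ m q Q * κ (dist (b 0) (β u))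

/-- the same with continuous quasi-geodesics. -/
def IsMorseCont (κ : ℝ → ℝ) (b : ℝ → X) : Prop :=
  ∃ m : ℝ → ℝ → ℝ, (∀ q Q, 0 ≤ m q Q) ∧ ∀ q Q : ℝ, 1 ≤ q → 0 ≤ Q → ∀ (β : ℝ → X) (s t : ℝ),
    s ≤ t → ContinuousOn β (Icc s t) → IsQuasiGeodesic q Q β s t →
      β s ∈ b '' Ici 0 → β t ∈ b '' Ici 0 →
      ∀ u ∈ Icc s t, Metric.infDist (β u) (b '' Ici 0) ≤ m q Q * κ (dist (b 0) (β u))

/-- the paths from `b (t - r κ(t))` to `b (t + r κ(t))` that avoid the open ball of radius `r κ(t)`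
centred at `b t`. -/
def Avoiding (κ : ℝ → ℝ) (b : ℝ → X) (r t : ℝ) : Set (ℝ → X) :=
  {γ | ContinuousOn γ (Icc 0 1) ∧ γ 0 = b (t - r * κ t) ∧ γ 1 = b (t + r * κ t) ∧
    ∀ u ∈ Icc (0 : ℝ) 1, γ u ∉ Metric.ball (b t) (r * κ t)}

/-- the infimum of the lengths of these paths. -/
noncomputable def rho (κ : ℝ → ℝ) (b : ℝ → X) (r t : ℝ) : ENNReal :=
  ⨅ γ ∈ Avoiding κ b r t, eVariationOn γ (Icc 0 1)

/-- the `κ`-lower divergence. -/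
noncomputable def lowerDiv (κ : ℝ → ℝ) (b : ℝ → X) (r : ℝ) : ENNReal :=
  ⨅ t ∈ {t : ℝ | 0 ≤ t ∧ r * κ t < t}, rho κ b r t / ENNReal.ofReal (κ t)

/-- the `κ`-lower divergence is superlinear. -/
def Superlinear (κ : ℝ → ℝ) (b : ℝ → X) : Prop :=
  Tendsto (fun r : ℝ => lowerDiv κ b r / ENNReal.ofReal r) atTop (𝓝 ⊤)

end R467.KM
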