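import Mathlib
import Pool.Agent.R467.KM.Defs

/-! Morse rays have superlinear divergence: minimal weighted chains. -/

set_option autoImplicit false

namespace R467.KM

open Set Filter Topology

variable {X : Type*} [MetricSpace X]

/-- chains with steps at most one; `n` is the total weight -/
inductive Ch (w : X → ℕ) : ℕ → X → X → Prop
  | nil (x : X) : Ch w 0 x x
  | cons {n : ℕ} {x y z : X} : dist x y ≤ 1 → Ch w n y z → Ch w (w x + n) x z

theorem Ch.trans {w : X → ℕ} {n m : ℕ} {x y z : X} (h : Ch w n x y) (h' : Ch w m y z) :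
    Ch w (n + m) x z := by
  induction h with
  | nil x => simpa using h'
  | cons hd _ ih => rw [add_assoc]; exact Ch.cons hd (ih h')

theorem Ch.single {w : X → ℕ} {x y : X} (h : dist x y ≤ 1) : Ch w (w x) x y := by
  have := Ch.cons h (Ch.nil (w := w) y)
  simpa using this

theorem Ch.geodesic (hX : GeodesicSpace X) {w : X → ℕ} {Λ : ℕ} (hw : ∀ x, w x ≤ Λ) (x y : X) :
    ∃ n : ℕ, Ch w n x y ∧ (n : ℝ) ≤ Λ * (dist x y + 1) := by
  obtain ⟨g, g0, g1, hg⟩ := hX x y
  have hd : (0 : ℝ) ≤ dist x y := dist_nonneg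
  have key : ∀ k : ℕ, ∃ n : ℕ, Ch w n x (g (min (k : ℝ) (dist x y))) ∧ n ≤ Λ * k := by
    intro k
    induction k with
    | zero =>
      refine ⟨0, ?_, by simp⟩
      rw [Nat.cast_zero, min_eq_left hd, g0]
      exact Ch.nil x
    | succ k ih =>
      obtain ⟨n, hn, hle⟩ := ih
      refine ⟨n + w (g (min (k : ℝ) (dist x y))), hn.trans (Ch.single ?_), ?_⟩
      · have hk : (0 : ℝ) ≤ k := Nat.cast_nonneg k
        rw [hg _ ⟨le_min hk hd, min_le_right _ _⟩ _
          ⟨le_min (by positivity) hd, min_le_right _ _⟩, abs_le]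
        push_cast
        constructor
        · rcases min_cases (k : ℝ) (dist x y) with h | h <;>
          rcases min_cases ((k : ℝ) + 1) (dist x y) with h' | h' <;> linarith [h.1, h'.1]
        · have : min (k : ℝ) (dist x y) ≤ min ((k : ℝ) + 1) (dist x y) :=
            min_le_min_right _ (by linarith)
          linarith
      · have := hw (g (min (k : ℝ) (dist x y)))
        rw [mul_add, mul_one]
        omega
  obtain ⟨n, hn, hle⟩ := key ⌈dist x y⌉₊
  rw [min_eq_right (Nat.le_ceil _), g1] at hn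
  refine ⟨n, hn, ?_⟩
  have h1 := (Nat.ceil_lt_add_one hd).le
  calc (n : ℝ) ≤ (Λ : ℝ) * (⌈dist x y⌉₊ : ℝ) := by exact_mod_cast hle
  _ ≤ _ := by gcongr

theorem Ch.extract {w : X → ℕ} {n : ℕ} {a a' : X} (h : Ch w n a a') :
    ∃ (N : ℕ) (x : ℕ → X), x 0 = a ∧ x N = a' ∧ (∀ i < N, dist (x i) (x (i + 1)) ≤ 1) ∧
      ∑ i ∈ Finset.range N, w (x i) = n := by
  induction h with
  | nil x => exact ⟨0, fun _ => x, rfl, rfl, by simp, by simp⟩
  | @cons n x y z hd _ ih =>
    obtain ⟨N, f, f0, fN, hf, hs⟩ := ih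
    refine ⟨N + 1, fun i => Nat.casesOn i x f, rfl, fN, ?_, ?_⟩
    · intro i hi
      cases i with
      | zero => simpa [f0] using hd
      | succ i => exact hf i (by omega)
    · rw [Finset.sum_range_succ', ← hs, add_comm]
      rfl

theorem Ch.ofFun {w : X → ℕ} {N : ℕ} {x : ℕ → X} (hx : ∀ i < N, dist (x i) (x (i + 1)) ≤ 1)
    {i j : ℕ} (hij : i ≤ j) (hj : j ≤ N) :
    Ch w (∑ k ∈ Finset.Ico i j, w (x k)) (x i) (x j) := by
  induction j, hij using Nat.le_induction with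
  | base => simpa using Ch.nil (w := w) (x i)
  | succ j hij ih =>
    rw [Finset.sum_Ico_succ_top hij]
    exact (ih (by omega)).trans (Ch.single (hx j (by omega)))

theorem dist_chain {N : ℕ} {x : ℕ → X} (hx : ∀ i < N, dist (x i) (x (i + 1)) ≤ 1)
    {i j : ℕ} (hij : i ≤ j) (hj : j ≤ N) : dist (x i) (x j) ≤ (j : ℝ) - i := by
  induction j, hij using Nat.le_induction with
  | base => simp
  | succ j hij ih =>
    have h1 := ih (by omega)
    have h2 := hx j (by omega)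
    have h3 := dist_triangle (x i) (x j) (x (j + 1))
    push_cast
    linarith

/-- interpolation of a discrete chain -/
theorem interp (hX : GeodesicSpace X) {N : ℕ} {x : ℕ → X}
    (hx : ∀ i < N, dist (x i) (x (i + 1)) ≤ 1) :
    ∃ β : ℝ → X, (∀ i ≤ N, β (i : ℝ) = x i) ∧
      (∀ u ∈ Icc (0 : ℝ) N, ∀ v ∈ Icc (0 : ℝ) N, dist (β u) (β v) ≤ |u - v|) ∧
      (∀ u ∈ Icc (0 : ℝ) N, dist (x ⌊u⌋₊) (β u) ≤ 1) := by
  choose g g0 g1 hg using hX
  set d : ℕ → ℝ := fun i => dist (x i) (x (i + 1)) with hd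
  set β : ℝ → X := fun u => g (x ⌊u⌋₊) (x (⌊u⌋₊ + 1)) (d ⌊u⌋₊ * (u - ⌊u⌋₊)) with hβ
  have hd0 : ∀ i, 0 ≤ d i := fun i => dist_nonneg
  have hfl : ∀ u ∈ Icc (0 : ℝ) N, (⌊u⌋₊ : ℝ) ≤ u ∧ u < ⌊u⌋₊ + 1 ∧ ⌊u⌋₊ ≤ N := by
    intro u hu
    refine ⟨Nat.floor_le hu.1, Nat.lt_floor_add_one u, ?_⟩
    have : (⌊u⌋₊ : ℝ) ≤ N := (Nat.floor_le hu.1).trans hu.2
    exact_mod_cast this
  -- inside one cell
  have A3 : ∀ i < N, ∀ u v : ℝ, (i : ℝ) ≤ u → u ≤ i + 1 → (i : ℝ) ≤ v → v ≤ i + 1 →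
      dist (g (x i) (x (i + 1)) (d i * (u - i))) (g (x i) (x (i + 1)) (d i * (v - i))) ≤
        |u - v| := by
    intro i hi u v h1 h2 h3 h4
    have e1 : d i * (u - i) ∈ Icc 0 (dist (x i) (x (i + 1))) :=
      ⟨mul_nonneg (hd0 i) (by linarith), by
        have := mul_le_mul_of_nonneg_left (show u - i ≤ 1 by linarith) (hd0 i)
        simpa [hd] using this⟩
    have e2 : d i * (v - i) ∈ Icc 0 (dist (x i) (x (i + 1))) :=
      ⟨mul_nonneg (hd0 i) (by linarith), by
        have := mul_le_mul_of_nonneg_left (show v - i ≤ 1 by linarith) (hd0 i)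
        simpa [hd] using this⟩
    rw [hg _ _ _ e1 _ e2]
    have : d i * (u - i) - d i * (v - i) = d i * (u - v) := by ring
    rw [this, abs_mul, abs_of_nonneg (hd0 i)]
    have h5 := hx i hi
    calc _ ≤ 1 * |u - v| := mul_le_mul_of_nonneg_right h5 (abs_nonneg _)
    _ = _ := one_mul _
  have A1 : ∀ u ∈ Icc (0 : ℝ) N, dist (x ⌊u⌋₊) (β u) ≤ u - ⌊u⌋₊ := by
    intro u hu
    obtain ⟨h1, h2, h3⟩ := hfl u hu
    rcases h3.lt_or_eq with h4 | h4
    · have := A3 ⌊u⌋₊ h4 (⌊u⌋₊ : ℝ) u le_rfl (by linarith) h1 h2.le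
      rw [sub_self, mul_zero, g0] at this
      rw [abs_sub_comm, abs_of_nonneg (by linarith)] at this
      exact this
    · have h5 : u = ⌊u⌋₊ := le_antisymm (by rw [h4]; exact hu.2) h1
      have h6 : β u = x ⌊u⌋₊ := by
        simp only [hβ]
        rw [← h5, sub_self, mul_zero, g0]
      rw [h6, dist_self]; linarith
  have A2 : ∀ u ∈ Icc (0 : ℝ) N, ⌊u⌋₊ < N → dist (β u) (x (⌊u⌋₊ + 1)) ≤ ⌊u⌋₊ + 1 - u := by
    intro u hu h4
    obtain ⟨h1, h2, h3⟩ := hfl u hu
    have := A3 ⌊u⌋₊ h4 u ((⌊u⌋₊ : ℝ) + 1) h1 h2.le (by linarith) le_rfl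
    have e : d ⌊u⌋₊ * ((⌊u⌋₊ : ℝ) + 1 - ⌊u⌋₊) = dist (x ⌊u⌋₊) (x (⌊u⌋₊ + 1)) := by
      rw [add_sub_cancel_left, mul_one]
    rw [e, g1] at this
    rw [abs_sub_comm, abs_of_nonneg (by linarith)] at this
    exact this
  have main : ∀ u ∈ Icc (0 : ℝ) N, ∀ v ∈ Icc (0 : ℝ) N, u ≤ v → dist (β u) (β v) ≤ v - u := by
    intro u hu v hv huv
    obtain ⟨h1, h2, h3⟩ := hfl u hu
    obtain ⟨k1, k2, k3⟩ := hfl v hv
    have hij : ⌊u⌋₊ ≤ ⌊v⌋₊ := Nat.floor_mono huv
    rcases hij.lt_or_eq with h | h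
    · have e1 := A2 u hu (by omega)
      have e2 := dist_chain hx (show ⌊u⌋₊ + 1 ≤ ⌊v⌋₊ from h) k3
      have e3 := A1 v hv
      have e4 := dist_triangle4 (β u) (x (⌊u⌋₊ + 1)) (x ⌊v⌋₊) (β v)
      push_cast at e2
      linarith
    · rcases h3.lt_or_eq with h4 | h4
      · have := A3 ⌊u⌋₊ h4 u v h1 h2.le (by rw [h]; exact k1) (by rw [h]; exact k2.le)
        rw [abs_sub_comm, abs_of_nonneg (by linarith)] at this
        have e : β v = g (x ⌊u⌋₊) (x (⌊u⌋₊ + 1)) (d ⌊u⌋₊ * (v - ⌊u⌋₊)) := by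
          simp only [hβ]; rw [h]
        rw [e]
        exact this
      · have h5 : u = v := by
          have : (⌊u⌋₊ : ℝ) = N := by exact_mod_cast h4
          linarith [hv.2]
        rw [h5, dist_self]; linarith
  refine ⟨β, ?_, ?_, ?_⟩
  · intro i _
    simp only [hβ]
    rw [Nat.floor_natCast, sub_self, mul_zero, g0]
  · intro u hu v hv
    rcases le_total u v with h | h
    · rw [abs_sub_comm, abs_of_nonneg (by linarith)]
      exact main u hu v hv h
    · rw [abs_of_nonneg (by linarith), dist_comm]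
      exact main v hv u hu h
  · intro u hu
    have := A1 u hu
    have := (hfl u hu).2.1
    linarith

theorem Gauge.scale {κ : ℝ → ℝ} (hκ : Gauge κ) {l t : ℝ} (hl : 1 ≤ l) (ht : 0 ≤ t) :
    κ (l * t) ≤ l * κ t := by
  have hl0 : 0 < l := by linarith
  have h := hκ.concave.2 (Set.mem_Ici.mpr (le_refl (0 : ℝ)))
    (Set.mem_Ici.mpr (mul_nonneg hl0.le ht))
    (show 0 ≤ 1 - 1 / l by
      rw [sub_nonneg, div_le_one hl0]; exact hl) (show 0 ≤ 1 / l by positivity) (by ring)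
  simp only [smul_eq_mul, mul_zero, zero_add] at h
  have e : 1 / l * (l * t) = t := by field_simp
  rw [e] at h
  have h0 := hκ.one_le 0 le_rfl
  have h1 : 0 ≤ (1 - 1 / l) * κ 0 :=
    mul_nonneg (by rw [sub_nonneg, div_le_one hl0]; exact hl) (by linarith)
  have h2 : 1 / l * κ (l * t) ≤ κ t := by linarith
  calc κ (l * t) = l * (1 / l * κ (l * t)) := by field_simp
  _ ≤ l * κ t := mul_le_mul_of_nonneg_left h2 hl0.le

/-- a short path gives a short chain outside the ball -/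
theorem chain_of_path {w : X → ℕ} {p : X} {R C : ℝ} (hR : 0 ≤ R) (hC : 0 ≤ C)
    (hw : ∀ x, R ≤ dist x p → w x = 1) {γ : ℝ → X} (hγ : ContinuousOn γ (Icc 0 1))
    (hout : ∀ u ∈ Icc (0 : ℝ) 1, R ≤ dist (γ u) p)
    (hvar : eVariationOn γ (Icc 0 1) < ENNReal.ofReal (C * R)) :
    ∃ n : ℕ, Ch w n (γ 0) (γ 1) ∧ (n : ℝ) ≤ 2 * (C * R) + 1 := by
  have hCR : 0 ≤ C * R := mul_nonneg hC hR
  obtain ⟨δ, hδ, hδ'⟩ := Metric.uniformContinuousOn_iff.mp
    (isCompact_Icc.uniformContinuousOn_of_continuous hγ) (1 / 2) (by norm_num)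
  obtain ⟨n0, hn0⟩ := exists_nat_gt (1 / δ)
  set n : ℕ := n0 + 1 with hn
  have hnpos : (0 : ℝ) < n := by positivity
  have hnδ : 1 / (n : ℝ) < δ := by
    rw [div_lt_iff₀ hnpos, mul_comm, ← div_lt_iff₀ hδ, hn]
    push_cast; linarith
  set y : ℕ → X := fun i => γ ((i : ℝ) / n) with hy
  have hmem : ∀ i ≤ n, ((i : ℝ) / n) ∈ Icc (0 : ℝ) 1 := by
    intro i hi
    refine ⟨by positivity, ?_⟩
    rw [div_le_one hnpos]
    exact_mod_cast hi
  have hstep : ∀ i < n, dist (y i) (y (i + 1)) ≤ 1 / 2 := by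
    intro i hi
    refine (hδ' _ (hmem i hi.le) _ (hmem (i + 1) hi) ?_).le
    rw [Real.dist_eq]
    have : (i : ℝ) / n - ((i + 1 : ℕ) : ℝ) / n = -(1 / n) := by
      push_cast; field_simp; ring
    rw [this, abs_neg, abs_of_pos (by positivity)]
    exact hnδ
  have hsum : ∑ i ∈ Finset.range n, dist (y i) (y (i + 1)) ≤ C * R := by
    have h1 := eVariationOn.sum_le_of_monotoneOn_Iic (f := γ) (s := Icc 0 1) (n := n)
      (u := fun i : ℕ => (i : ℝ) / n) (by
        intro i _ j _ hij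
        exact div_le_div_of_nonneg_right (by exact_mod_cast hij) hnpos.le) (fun i hi => hmem i hi)
    have h2 : ENNReal.ofReal (∑ i ∈ Finset.range n, dist (y i) (y (i + 1))) ≤
        ENNReal.ofReal (C * R) := by
      rw [ENNReal.ofReal_sum_of_nonneg (fun i _ => dist_nonneg)]
      refine le_trans (le_of_eq ?_) (h1.trans hvar.le)
      refine Finset.sum_congr rfl fun i _ => ?_
      rw [← edist_dist, edist_comm]
    exact (ENNReal.ofReal_le_ofReal_iff hCR).mp h2
  have key : ∀ k ≤ n, ∃ (N : ℕ) (x : X), Ch w N (y 0) x ∧ R ≤ dist x p ∧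
      dist x (y k) ≤ (∑ i ∈ Finset.range k, dist (y i) (y (i + 1))) - N / 2 ∧
      (∑ i ∈ Finset.range k, dist (y i) (y (i + 1))) - (N : ℝ) / 2 ≤ 1 / 2 := by
    intro k
    induction k with
    | zero =>
      intro _
      refine ⟨0, y 0, Ch.nil _, hout _ (hmem 0 (Nat.zero_le _)), ?_, ?_⟩ <;> simp
    | succ k ih =>
      intro hk
      obtain ⟨N, x, h1, h2, h3, h4⟩ := ih (by omega)
      have h5 := hstep k (by omega)
      rw [Finset.sum_range_succ]
      have h6 := dist_triangle x (y k) (y (k + 1))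
      by_cases hc : (∑ i ∈ Finset.range k, dist (y i) (y (i + 1))) + dist (y k) (y (k + 1)) -
          (N : ℝ) / 2 ≤ 1 / 2
      · exact ⟨N, x, h1, h2, by linarith, hc⟩
      · push Not at hc
        refine ⟨N + 1, y (k + 1), ?_, hout _ (hmem (k + 1) hk), ?_, ?_⟩
        · have := h1.trans (Ch.single (w := w) (show dist x (y (k + 1)) ≤ 1 by linarith))
          rwa [hw x h2] at this
        · rw [dist_self]; push_cast; linarith
        · push_cast; linarith
  obtain ⟨N, x, h1, h2, h3, h4⟩ := key n le_rfl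
  have e0 : y 0 = γ 0 := by simp [hy]
  have e1 : y n = γ 1 := by simp only [hy]; rw [div_self hnpos.ne']
  refine ⟨N + 1, ?_, ?_⟩
  · have := h1.trans (Ch.single (w := w) (show dist x (y n) ≤ 1 by linarith))
    rwa [hw x h2, e0, e1] at this
  · have := dist_nonneg (x := x) (y := y n)
    push_cast; linarith

theorem part_one (hX : GeodesicSpace X) {κ : ℝ → ℝ} (hκ : Gauge κ) {b : ℝ → X} (hb : IsRay b)
    (hM : IsMorseCont κ b) (C : ℕ) : ∃ r0 : ℝ, 1 ≤ r0 ∧ ∀ r : ℝ, r0 ≤ r → ∀ t : ℝ, 0 ≤ t →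
      r * κ t < t → ∀ γ ∈ Avoiding κ b r t,
        ENNReal.ofReal (C * (r * κ t)) ≤ eVariationOn γ (Icc 0 1) := by
  classical
  obtain ⟨m, hm0, hm⟩ := hM
  set Λ : ℕ := 16 * C + 16 with hΛ
  have hΛ1 : (1 : ℝ) ≤ Λ := by rw [hΛ]; push_cast; have : (0 : ℝ) ≤ C := Nat.cast_nonneg C; linarith
  set M : ℝ := m Λ 4 with hMdef
  have hM0 : 0 ≤ M := hm0 _ _
  have hC0 : (0 : ℝ) ≤ C := Nat.cast_nonneg C
  refine ⟨max 17 (16 * (M * (2 * C + 2)) + 1), le_trans (by norm_num) (le_max_left _ _), ?_⟩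
  intro r hr t ht hrt γ hγ
  by_contra hcon
  push Not at hcon
  have hr17 : 17 ≤ r := (le_max_left _ _).trans hr
  have hrM : 16 * (M * (2 * C + 2)) + 1 ≤ r := (le_max_right _ _).trans hr
  have hκt := hκ.one_le t ht
  set R : ℝ := r * κ t with hR
  have hRr : r ≤ R := by
    rw [hR]; nlinarith
  have hR17 : 17 ≤ R := hr17.trans hRr
  obtain ⟨hγc, hγ0, hγ1, hγo⟩ := hγ
  have hout : ∀ u ∈ Icc (0 : ℝ) 1, R ≤ dist (γ u) (b t) := by
    intro u hu
    have := hγo u hu
    rw [Metric.mem_ball, not_lt] at this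
    exact this
  -- weights
  set w : X → ℕ := fun x => if dist x (b t) < R / 2 then Λ else 1 with hw
  have hwΛ : ∀ x, w x ≤ Λ := by
    intro x; simp only [hw]; split_ifs <;> omega
  have hw1 : ∀ x, 1 ≤ w x := by
    intro x; simp only [hw]; split_ifs <;> omega
  have hwout : ∀ x, R ≤ dist x (b t) → w x = 1 := by
    intro x hx; simp only [hw]; rw [if_neg]; linarith
  obtain ⟨n1, hn1, hn1'⟩ := chain_of_path (w := w) (by linarith) hC0 hwout hγc hout hcon
  have hex : ∃ n, Ch w n (γ 0) (γ 1) := ⟨n1, hn1⟩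
  set n := Nat.find hex with hn
  have hnch : Ch w n (γ 0) (γ 1) := Nat.find_spec hex
  have hnmin : ∀ k, Ch w k (γ 0) (γ 1) → n ≤ k := fun k hk => Nat.find_min' hex hk
  have hnle : (n : ℝ) ≤ 2 * (C * R) + 1 := by
    have : (n : ℝ) ≤ n1 := by exact_mod_cast hnmin n1 hn1
    linarith
  obtain ⟨N, x, x0, xN, hx, hxs⟩ := hnch.extract
  -- minimality
  have hmin : ∀ i j : ℕ, i ≤ j → j ≤ N → ∀ k, Ch w k (x i) (x j) →
      ∑ l ∈ Finset.Ico i j, w (x l) ≤ k := by
    intro i j hij hj k hk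
    have h1 := Ch.ofFun (w := w) hx (Nat.zero_le i) (hij.trans hj)
    have h2 := Ch.ofFun (w := w) hx hj (le_refl N)
    have h3 := (h1.trans hk).trans h2
    rw [x0, xN] at h3
    have h4 := hnmin _ h3
    have h5 : ∑ l ∈ Finset.Ico 0 i, w (x l) + ∑ l ∈ Finset.Ico i j, w (x l) +
        ∑ l ∈ Finset.Ico j N, w (x l) = n := by
      rw [Finset.sum_Ico_consecutive _ (Nat.zero_le i) hij,
        Finset.sum_Ico_consecutive _ (Nat.zero_le j) hj, ← Finset.range_eq_Ico, hxs]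
    omega
  have hqg : ∀ i j : ℕ, i ≤ j → j ≤ N → (j : ℝ) - i ≤ Λ * (dist (x i) (x j) + 1) := by
    intro i j hij hj
    obtain ⟨k, hk, hk'⟩ := Ch.geodesic hX hwΛ (x i) (x j)
    have h1 := hmin i j hij hj k hk
    have h2 : j - i ≤ ∑ l ∈ Finset.Ico i j, w (x l) := by
      calc j - i = ∑ l ∈ Finset.Ico i j, 1 := by simp
      _ ≤ _ := Finset.sum_le_sum fun l _ => hw1 _
    have h3 : ((j - i : ℕ) : ℝ) ≤ k := by exact_mod_cast h2.trans h1
    rw [Nat.cast_sub hij] at h3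
    linarith
  have hNn : (N : ℝ) ≤ n := by
    have : N ≤ ∑ l ∈ Finset.range N, w (x l) := by
      calc N = ∑ l ∈ Finset.range N, 1 := by simp
      _ ≤ _ := Finset.sum_le_sum fun l _ => hw1 _
    rw [hxs] at this
    exact_mod_cast this
  obtain ⟨β, hβi, hβL, hβf⟩ := interp hX hx
  -- quasi-geodesic
  have hQG : IsQuasiGeodesic (Λ : ℝ) 4 β 0 N := by
    have lower : ∀ u ∈ Icc (0 : ℝ) N, ∀ v ∈ Icc (0 : ℝ) N, u ≤ v →
        (v - u) / Λ - 4 ≤ dist (β u) (β v) := by
      intro u hu v hv huv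
      have h1 := hβf u hu
      have h2 := hβf v hv
      have hvN : ⌊v⌋₊ ≤ N := by
        have : (⌊v⌋₊ : ℝ) ≤ N := (Nat.floor_le hv.1).trans hv.2
        exact_mod_cast this
      have h3 := hqg ⌊u⌋₊ ⌊v⌋₊ (Nat.floor_mono huv) hvN
      have h4 := Nat.floor_le hu.1
      have h5 := Nat.lt_floor_add_one v
      have h6 := dist_triangle4 (x ⌊u⌋₊) (β u) (β v) (x ⌊v⌋₊)
      rw [dist_comm (β v) (x ⌊v⌋₊)] at h6
      have h7 : dist (x ⌊u⌋₊) (x ⌊v⌋₊) ≤ dist (β u) (β v) + 2 := by linarith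
      have hΛ0 : (0 : ℝ) < Λ := by linarith
      rw [sub_le_iff_le_add, div_le_iff₀ hΛ0]
      have h8 : (v - u : ℝ) ≤ (⌊v⌋₊ : ℝ) - ⌊u⌋₊ + 1 := by linarith
      have h9 : (Λ : ℝ) * (dist (x ⌊u⌋₊) (x ⌊v⌋₊) + 1) ≤ Λ * (dist (β u) (β v) + 3) :=
        mul_le_mul_of_nonneg_left (by linarith) hΛ0.le
      nlinarith
    intro u hu v hv
    refine ⟨?_, ?_⟩
    · rcases le_total u v with h | h
      · rw [abs_sub_comm, abs_of_nonneg (by linarith)]
        exact lower u hu v hv h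
      · rw [abs_of_nonneg (by linarith), dist_comm]
        exact lower v hv u hu h
    · have h1 := hβL u hu v hv
      have h2 : |u - v| ≤ Λ * |u - v| := by
        have := abs_nonneg (u - v)
        nlinarith
      linarith
  -- stays away from `b t`
  have hRt : R < t := hrt
  have hd0 : dist (x 0) (b t) = R := by
    rw [x0, hγ0, hb _ _ (by linarith) ht]
    have : t - R - t = -R := by ring
    rw [this, abs_neg, abs_of_pos (by linarith)]
  have hdN : dist (x N) (b t) = R := by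
    rw [xN, hγ1, hb _ _ (by linarith) ht]
    have : t + R - t = R := by ring
    rw [this, abs_of_pos (by linarith)]
  have haway : ∀ i ≤ N, (Λ : ℝ) * (R / 2 - dist (x i) (b t) - 1) ≤
      ((∑ l ∈ Finset.range i, w (x l) : ℕ) : ℝ) := by
    intro i
    induction i with
    | zero =>
      intro _
      rw [hd0]; simp only [Finset.range_zero, Finset.sum_empty, Nat.cast_zero]
      nlinarith
    | succ i ih =>
      intro hi
      have h1 := ih (by omega)
      have h2 := hx i (by omega)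
      have h3 := dist_triangle (x i) (x (i + 1)) (b t)
      have e : ((∑ l ∈ Finset.range (i + 1), w (x l) : ℕ) : ℝ) =
          ((∑ l ∈ Finset.range i, w (x l) : ℕ) : ℝ) + (w (x i) : ℝ) := by
        rw [Finset.sum_range_succ, Nat.cast_add]
      rw [e]
      have hΛ0 : (0 : ℝ) ≤ Λ := by linarith
      by_cases hc : dist (x i) (b t) < R / 2
      · have h4 : (w (x i) : ℝ) = Λ := by
          have : w (x i) = Λ := if_pos hc
          rw [this]
        rw [h4]
        have h5 : (Λ : ℝ) * (R / 2 - dist (x (i + 1)) (b t) - 1) ≤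
            Λ * ((R / 2 - dist (x i) (b t) - 1) + 1) :=
          mul_le_mul_of_nonneg_left (by linarith) hΛ0
        rw [mul_add, mul_one] at h5
        linarith
      · have h5 : (0 : ℝ) ≤ ((∑ l ∈ Finset.range i, w (x l) : ℕ) : ℝ) := Nat.cast_nonneg _
        have h7 : (0 : ℝ) ≤ (w (x i) : ℝ) := Nat.cast_nonneg _
        have h6 : (Λ : ℝ) * (R / 2 - dist (x (i + 1)) (b t) - 1) ≤ 0 :=
          mul_nonpos_of_nonneg_of_nonpos hΛ0 (by linarith)
        linarith
  have hfar : ∀ i ≤ N, R / 4 ≤ dist (x i) (b t) := by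
    intro i hi
    by_contra hc
    push Not at hc
    have h1 := haway i hi
    have h2 : ((∑ l ∈ Finset.range i, w (x l) : ℕ) : ℝ) ≤ n := by
      rw [← hxs]
      exact_mod_cast Finset.sum_le_sum_of_subset (Finset.range_mono hi)
    have h3 : (Λ : ℝ) * (R / 4 - 1) ≤ (Λ : ℝ) * (R / 2 - dist (x i) (b t) - 1) :=
      mul_le_mul_of_nonneg_left (by linarith) (by linarith)
    have h4 : (Λ : ℝ) = 16 * C + 16 := by rw [hΛ]; push_cast; ring
    rw [h4] at h3
    nlinarith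
  -- a point far from the ray
  have hex2 : ∃ i ≤ N, R / 16 ≤ Metric.infDist (x i) (b '' Ici 0) := by
    by_contra hcc
    push Not at hcc
    have hne : (b '' Ici 0).Nonempty := ⟨b 0, 0, Set.mem_Ici.mpr le_rfl, rfl⟩
    have hch : ∀ i ≤ N, ∃ s, 0 ≤ s ∧ dist (x i) (b s) < R / 16 := by
      intro i hi
      obtain ⟨_, ⟨s, hs, rfl⟩, hd⟩ := (Metric.infDist_lt_iff hne).mp (hcc i hi)
      exact ⟨s, hs, hd⟩
    have hN0 : N ≠ 0 := by
      intro h0
      have h1 : dist (x 0) (x N) = 0 := by rw [h0, dist_self]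
      rw [x0, xN, hγ0, hγ1, hb _ _ (by linarith) (by linarith)] at h1
      have : t - R - (t + R) = -(2 * R) := by ring
      rw [this, abs_neg, abs_of_pos (by linarith)] at h1
      linarith
    choose! s hs0 hs1 using hch
    set S : ℕ → ℝ := fun i => if i = 0 then t - R else if i = N then t + R else s i with hS
    have hSd : ∀ i ≤ N, 0 ≤ S i ∧ dist (x i) (b (S i)) < R / 16 := by
      intro i hi
      simp only [hS]
      split_ifs with h1 h2
      · rw [h1, x0, hγ0, dist_self]; exact ⟨by linarith, by linarith⟩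
      · rw [h2, xN, hγ1, dist_self]; exact ⟨by linarith, by linarith⟩
      · exact ⟨hs0 i hi, hs1 i hi⟩
    have hSN : S N = t + R := by simp [hS, hN0]
    have hS0 : S 0 = t - R := by simp [hS]
    have hex3 : ∃ i, t < S i := ⟨N, by rw [hSN]; linarith⟩
    set k := Nat.find hex3 with hk
    have hk1 : t < S k := Nat.find_spec hex3
    have hk0 : k ≠ 0 := by
      intro h0; rw [h0, hS0] at hk1; linarith
    have hkN : k ≤ N := Nat.find_min' hex3 (by rw [hSN]; linarith)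
    have hk2 : S (k - 1) ≤ t := by
      have := Nat.find_min hex3 (show k - 1 < k by omega)
      exact not_lt.mp this
    obtain ⟨a1, a2⟩ := hSd (k - 1) (by omega)
    obtain ⟨b1, b2⟩ := hSd k hkN
    have hstep : dist (x (k - 1)) (x k) ≤ 1 := by
      have := hx (k - 1) (by omega)
      rwa [Nat.sub_add_cancel (by omega)] at this
    have h1 : dist (b (S (k - 1))) (b (S k)) ≤ R / 8 + 1 := by
      have := dist_triangle4 (b (S (k - 1))) (x (k - 1)) (x k) (b (S k))
      rw [dist_comm (b (S (k - 1))) (x (k - 1))] at this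
      linarith
    rw [hb _ _ a1 b1, abs_sub_comm, abs_of_nonneg (by linarith)] at h1
    have h2 : dist (b (S (k - 1))) (b t) ≤ R / 8 + 1 := by
      rw [hb _ _ a1 ht, abs_sub_comm, abs_of_nonneg (by linarith)]; linarith
    have h3 := dist_triangle (x (k - 1)) (b (S (k - 1))) (b t)
    have h4 := hfar (k - 1) (by omega)
    linarith
  obtain ⟨i, hiN, hi⟩ := hex2
  have hcont : ContinuousOn β (Icc 0 (N : ℝ)) := by
    rw [Metric.continuousOn_iff]
    intro u hu ε hε
    refine ⟨ε, hε, fun v hv huv => ?_⟩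
    rw [Real.dist_eq] at huv
    exact (hβL v hv u hu).trans_lt huv
  have hiN' : (i : ℝ) ≤ N := by exact_mod_cast hiN
  have hfin := hm (Λ : ℝ) 4 hΛ1 (by norm_num) β 0 N (Nat.cast_nonneg N) hcont hQG
    (by
      have := hβi 0 (Nat.zero_le _)
      rw [Nat.cast_zero] at this
      rw [this, x0, hγ0]
      exact ⟨t - R, Set.mem_Ici.mpr (by linarith), rfl⟩)
    (by
      rw [hβi N le_rfl, xN, hγ1]
      exact ⟨t + R, Set.mem_Ici.mpr (by linarith), rfl⟩) (i : ℝ) ⟨Nat.cast_nonneg i, hiN'⟩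
  rw [hβi i hiN] at hfin
  have hnorm : dist (b 0) (x i) ≤ (2 * C + 2) * t := by
    have h1 := dist_triangle (b 0) (x 0) (x i)
    have h2 := dist_chain hx (Nat.zero_le i) hiN
    have h3 : dist (b 0) (x 0) = t - R := by
      rw [x0, hγ0, hb _ _ le_rfl (by linarith), zero_sub, abs_neg, abs_of_pos (by linarith)]
    rw [Nat.cast_zero, sub_zero] at h2
    nlinarith
  have hκ2 : κ (dist (b 0) (x i)) ≤ (2 * C + 2) * κ t :=
    (hκ.mono (Set.mem_Ici.mpr dist_nonneg) (Set.mem_Ici.mpr (by positivity)) hnorm).trans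
      (hκ.scale (by linarith) ht)
  have h1 : R / 16 ≤ M * ((2 * C + 2) * κ t) :=
    hi.trans (hfin.trans (mul_le_mul_of_nonneg_left hκ2 hM0))
  have hκ0 : 0 < κ t := by linarith
  have h2 : r * κ t ≤ (16 * (M * (2 * C + 2))) * κ t := by
    rw [hR] at h1; linarith
  have h3 := le_of_mul_le_mul_right h2 hκ0
  linarith

end R467.KM
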