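import Mathlib
import Pool.Agent.R467.KM.PartOne

/-! Rays with superlinear divergence are Morse. -/

set_option autoImplicit false

namespace R467.KM

open Set Filter Topology

variable {X : Type*} [MetricSpace X]

/-- there is a path of length at most `l` in `S` -/
def PathIn (S : Set X) (l : ℝ) (x y : X) : Prop :=
  0 ≤ l ∧ ∃ f : ℝ → X, f 0 = x ∧ f l = y ∧
    (∀ u ∈ Icc (0 : ℝ) l, ∀ v ∈ Icc (0 : ℝ) l, dist (f u) (f v) ≤ |u - v|) ∧
    ∀ u ∈ Icc (0 : ℝ) l, f u ∈ S

theorem PathIn.const {S : Set X} {x : X} (hx : x ∈ S) {l : ℝ} (hl : 0 ≤ l) : PathIn S l x x :=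
  ⟨hl, fun _ => x, rfl, rfl, fun u _ v _ => by rw [dist_self]; exact abs_nonneg _,
    fun _ _ => hx⟩

theorem PathIn.symm {S : Set X} {x y : X} {l : ℝ} (h : PathIn S l x y) : PathIn S l y x := by
  obtain ⟨hl, f, f0, f1, hf, hS⟩ := h
  refine ⟨hl, fun u => f (l - u), by simpa using f1, by simpa using f0, ?_, ?_⟩
  · intro u hu v hv
    have := hf (l - u) ⟨by linarith [hu.2], by linarith [hu.1]⟩ (l - v)
      ⟨by linarith [hv.2], by linarith [hv.1]⟩
    have e : l - u - (l - v) = -(u - v) := by ring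
    rwa [e, abs_neg] at this
  · intro u hu
    exact hS _ ⟨by linarith [hu.2], by linarith [hu.1]⟩

theorem PathIn.trans {S : Set X} {x y z : X} {l l' : ℝ} (h : PathIn S l x y)
    (h' : PathIn S l' y z) : PathIn S (l + l') x z := by
  obtain ⟨hl, f, f0, f1, hf, hS⟩ := h
  obtain ⟨hl', g, g0, g1, hg, hS'⟩ := h'
  have main : ∀ u ∈ Icc (0 : ℝ) (l + l'), ∀ v ∈ Icc (0 : ℝ) (l + l'), u ≤ v →
      dist (if u ≤ l then f u else g (u - l)) (if v ≤ l then f v else g (v - l)) ≤ v - u := by
    intro u hu v hv huv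
    by_cases h1 : v ≤ l
    · rw [if_pos h1, if_pos (huv.trans h1)]
      have := hf u ⟨hu.1, huv.trans h1⟩ v ⟨hu.1.trans huv, h1⟩
      rwa [abs_sub_comm, abs_of_nonneg (by linarith)] at this
    · push Not at h1
      rw [if_neg (not_le.mpr h1)]
      by_cases h2 : u ≤ l
      · rw [if_pos h2]
        have a1 := hf u ⟨hu.1, h2⟩ l ⟨hl, le_rfl⟩
        have a2 := hg 0 ⟨le_rfl, hl'⟩ (v - l) ⟨by linarith, by linarith [hv.2]⟩
        rw [abs_sub_comm, abs_of_nonneg (by linarith), f1] at a1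
        rw [abs_sub_comm, abs_of_nonneg (by linarith), g0] at a2
        have := dist_triangle (f u) y (g (v - l))
        linarith
      · push Not at h2
        rw [if_neg (not_le.mpr h2)]
        have := hg (u - l) ⟨by linarith, by linarith [hu.2]⟩ (v - l)
          ⟨by linarith, by linarith [hv.2]⟩
        rw [abs_sub_comm, abs_of_nonneg (by linarith)] at this
        linarith
  refine ⟨by linarith, fun u => if u ≤ l then f u else g (u - l), ?_, ?_, ?_, ?_⟩
  · simp only [if_pos hl]; exact f0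
  · rcases hl'.lt_or_eq with h1 | h1
    · simp only
      rw [if_neg (by linarith), add_sub_cancel_left]; exact g1
    · simp only
      rw [if_pos (by linarith), ← h1, add_zero, f1, ← g0, ← g1, h1]
  · intro u hu v hv
    rcases le_total u v with h | h
    · rw [abs_sub_comm, abs_of_nonneg (by linarith)]
      exact main u hu v hv h
    · rw [abs_of_nonneg (by linarith), dist_comm]
      exact main v hv u hu h
  · intro u hu
    simp only
    split_ifs with h1
    · exact hS u ⟨hu.1, h1⟩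
    · push Not at h1
      exact hS' _ ⟨by linarith, by linarith [hu.2]⟩

theorem PathIn.mem_right {S : Set X} {x y : X} {l : ℝ} (h : PathIn S l x y) : y ∈ S := by
  obtain ⟨hl, f, f0, f1, hf, hS⟩ := h
  rw [← f1]; exact hS l ⟨hl, le_rfl⟩

theorem PathIn.mono {S : Set X} {x y : X} {l l' : ℝ} (h : PathIn S l x y) (hll : l ≤ l') :
    PathIn S l' x y := by
  have := h.trans (PathIn.const h.mem_right (show 0 ≤ l' - l by linarith))
  rwa [add_sub_cancel] at this

theorem PathIn.geo (hX : GeodesicSpace X) {S : Set X} {x y : X}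
    (h : ∀ z, dist x z + dist z y = dist x y → z ∈ S) : PathIn S (dist x y) x y := by
  obtain ⟨g, g0, g1, hg⟩ := hX x y
  refine ⟨dist_nonneg, g, g0, g1, fun u hu v hv => (hg u hu v hv).le, fun u hu => h _ ?_⟩
  have h1 := hg 0 ⟨le_rfl, dist_nonneg⟩ u hu
  have h2 := hg u hu (dist x y) ⟨dist_nonneg, le_rfl⟩
  rw [g0, zero_sub, abs_neg, abs_of_nonneg hu.1] at h1
  rw [g1, abs_sub_comm, abs_of_nonneg (by linarith [hu.2])] at h2
  rw [h1, h2]; ring

theorem PathIn.ray {b : ℝ → X} (hb : IsRay b) {S : Set X} {s t : ℝ} (hs : 0 ≤ s) (hst : s ≤ t)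
    (h : ∀ u ∈ Icc s t, b u ∈ S) : PathIn S (t - s) (b s) (b t) := by
  refine ⟨by linarith, fun u => b (s + u), by simp, by simp, ?_, ?_⟩
  · intro u hu v hv
    rw [hb _ _ (by linarith [hu.1]) (by linarith [hv.1])]
    have : s + u - (s + v) = u - v := by ring
    rw [this]
  · intro u hu
    exact h _ ⟨by linarith [hu.1], by linarith [hu.2]⟩

/-- height over the ray -/
noncomputable def hh (b : ℝ → X) (x : X) : ℝ := Metric.infDist x (b '' Ici 0)

theorem hh_nonneg (b : ℝ → X) (x : X) : 0 ≤ hh b x := Metric.infDist_nonneg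

theorem hh_le {b : ℝ → X} {x : X} {s : ℝ} (hs : 0 ≤ s) : hh b x ≤ dist x (b s) :=
  Metric.infDist_le_dist_of_mem ⟨s, hs, rfl⟩

theorem hh_lip (b : ℝ → X) (x y : X) : hh b x ≤ hh b y + dist x y :=
  Metric.infDist_le_infDist_add_dist

theorem hh_near (b : ℝ → X) (x : X) : ∃ p : ℝ, 0 ≤ p ∧ dist x (b p) ≤ hh b x + 1 := by
  have hne : (b '' Ici 0).Nonempty := ⟨b 0, 0, Set.mem_Ici.mpr le_rfl, rfl⟩
  obtain ⟨_, ⟨p, hp, rfl⟩, h⟩ := (Metric.infDist_lt_iff (x := x) hne).mp
    (show Metric.infDist x (b '' Ici 0) < hh b x + 1 by unfold hh; linarith)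
  exact ⟨p, hp, h.le⟩

/-- internal form of superlinear divergence -/
def SL (κ : ℝ → ℝ) (b : ℝ → X) : Prop :=
  ∀ C : ℝ, 0 < C → ∃ r0 : ℝ, 0 < r0 ∧ ∀ t R : ℝ, 0 < t → r0 * κ t ≤ R → R < t →
    ∀ l : ℝ, PathIn {x | R ≤ dist x (b t)} l (b (t - R)) (b (t + R)) → C * R ≤ l

theorem mid_path (hX : GeodesicSpace X) {b : ℝ → X} {z : ℕ → X} {σ R m : ℝ}
    {i j : ℕ} (hij : i ≤ j) {p p' : ℝ} (hp : 0 ≤ p) (hp' : 0 ≤ p') (hm : 0 ≤ m)
    (hb : IsRay b)
    (h1 : dist (z i) (b p) ≤ hh b (z i) + 1) (h2 : dist (z j) (b p') ≤ hh b (z j) + 1)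
    (hstep : ∀ k, i ≤ k → k < j → dist (z k) (z (k + 1)) ≤ σ) (hσ : 0 ≤ σ) (hR : σ + 1 ≤ R)
    (hH : ∀ k, i < k → k < j → 2 * R ≤ hh b (z k))
    (hp1 : 4 * R ≤ |p - m|) (hp2 : 4 * R ≤ |p' - m|) :
    PathIn {x | R ≤ dist x (b m)} (dist (z i) (b p) + σ * ((j : ℝ) - i) + dist (z j) (b p'))
      (b p) (b p') := by
  have side : ∀ (y : X) (s : ℝ), 0 ≤ s → dist y (b s) ≤ hh b y + 1 → 4 * R ≤ |s - m| →
      ∀ w : X, dist (b s) w + dist w y = dist (b s) y → 2 * R - 1 / 2 ≤ dist w (b m) := by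
    intro y s hs hy hsm w hw
    have a1 : hh b w ≤ dist w (b m) := hh_le hm
    have a2 := hh_lip b y w
    rw [dist_comm y w] at a2
    have a3 : |s - m| ≤ dist (b s) w + dist w (b m) := by
      rw [← hb s m hs hm]; exact dist_triangle _ _ _
    rw [dist_comm (b s) y] at hw
    linarith
  have seg1 : PathIn {x | R ≤ dist x (b m)} (dist (z i) (b p)) (b p) (z i) := by
    have := PathIn.geo hX (S := {x | R ≤ dist x (b m)}) (x := b p) (y := z i)
      (fun w hw => by
        have := side (z i) p hp h1 hp1 w hw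
        show R ≤ dist w (b m)
        linarith)
    rwa [dist_comm] at this
  have seg3 : PathIn {x | R ≤ dist x (b m)} (dist (z j) (b p')) (z j) (b p') := by
    have := PathIn.geo hX (S := {x | R ≤ dist x (b m)}) (x := b p') (y := z j)
      (fun w hw => by
        have := side (z j) p' hp' h2 hp2 w hw
        show R ≤ dist w (b m)
        linarith)
    rw [dist_comm] at this
    exact this.symm
  have hzi : 2 * R - 1 / 2 ≤ dist (z i) (b m) :=
    side (z i) p hp h1 hp1 (z i) (by rw [dist_self, add_zero])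
  have seg2 : ∀ k, i ≤ k → k ≤ j → PathIn {x | R ≤ dist x (b m)} (σ * ((k : ℝ) - i)) (z i) (z k) := by
    intro k hik
    induction k, hik using Nat.le_induction with
    | base =>
      intro _
      rw [sub_self, mul_zero]
      exact PathIn.const seg1.mem_right le_rfl
    | succ k hik ih =>
      intro hk
      have h3 := ih (by omega)
      have h4 := hstep k hik (by omega)
      have h5 : PathIn {x | R ≤ dist x (b m)} (dist (z k) (z (k + 1))) (z k) (z (k + 1)) := by
        refine PathIn.geo hX (fun w hw => ?_)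
        have h6 : dist (z k) w ≤ σ := by
          have : 0 ≤ dist w (z (k + 1)) := dist_nonneg
          linarith
        show R ≤ dist w (b m)
        rcases hik.lt_or_eq with h7 | h7
        · have h8 := hH k h7 (by omega)
          have h9 : hh b w ≤ dist w (b m) := hh_le hm
          have h10 := hh_lip b (z k) w
          linarith
        · rw [← h7] at h6
          have := dist_triangle (z i) w (b m)
          linarith
      have h7 := h3.trans (h5.mono h4)
      refine h7.mono (le_of_eq ?_)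
      push_cast; ring
  exact (seg1.trans (seg2 j hij le_rfl)).trans seg3

theorem ext_path {b : ℝ → X} (hb : IsRay b) {R l p p' : ℝ} (hp : 0 ≤ p) (hR : 0 ≤ R)
    (hpp : 8 * R ≤ p' - p)
    (h : PathIn {x | R ≤ dist x (b ((p + p') / 2))} l (b p) (b p')) :
    PathIn {x | R ≤ dist x (b ((p + p') / 2))} (l + (p' - p)) (b ((p + p') / 2 - R))
      (b ((p + p') / 2 + R)) := by
  have h1 : PathIn {x | R ≤ dist x (b ((p + p') / 2))} ((p + p') / 2 - R - p) (b p)
      (b ((p + p') / 2 - R)) := by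
    refine PathIn.ray hb hp (by linarith) (fun u hu => ?_)
    show R ≤ dist (b u) (b ((p + p') / 2))
    rw [hb _ _ (by linarith [hu.1]) (by linarith), abs_sub_comm, abs_of_nonneg (by linarith [hu.2])]
    linarith [hu.2]
  have h2 : PathIn {x | R ≤ dist x (b ((p + p') / 2))} (p' - ((p + p') / 2 + R))
      (b ((p + p') / 2 + R)) (b p') := by
    refine PathIn.ray hb (by linarith) (by linarith) (fun u hu => ?_)
    show R ≤ dist (b u) (b ((p + p') / 2))
    rw [hb _ _ (by linarith [hu.1]) (by linarith), abs_of_nonneg (by linarith [hu.1])]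
    linarith [hu.1]
  exact ((h1.symm.trans h).trans h2.symm).mono (by linarith)

end R467.KM
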