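import Mathlib
import Pool.Agent.R467.KM.PartTwo

/-! Rays with superlinear divergence are Morse: the core lemma. -/

set_option autoImplicit false

namespace R467.KM

open Set Filter Topology

variable {X : Type*} [MetricSpace X]

/-- a discrete quasi-geodesic with ends on the ray -/
structure Data (b : ℝ → X) (q Q : ℝ) (N : ℕ) (z : ℕ → X) (T : ℕ → ℝ) : Prop where
  mono : ∀ i j, i ≤ j → j ≤ N → T i ≤ T j
  step : ∀ i < N, T (i + 1) ≤ T i + 1
  idx : ∀ i j, i ≤ j → j ≤ N → (j : ℝ) - i ≤ T j - T i + 2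
  low : ∀ i j, i ≤ j → j ≤ N → (T j - T i) / q - Q ≤ dist (z i) (z j)
  up : ∀ i j, i ≤ j → j ≤ N → dist (z i) (z j) ≤ q * (T j - T i) + Q
  left : hh b (z 0) = 0
  right : hh b (z N) = 0

theorem exit_time {n : ℕ} {h S : ℕ → ℝ} {c B : ℝ} (hn : 0 < n) (hS0 : S 0 ≤ B)
    (hS : ∀ k < n, S (k + 1) ≤ S k + 1) (hend : h n < c) :
    ∃ d, 0 < d ∧ d ≤ n ∧ S d ≤ B + 1 ∧ (∀ k, 0 < k → k < d → c ≤ h k) ∧ (h d < c ∨ B ≤ S d) := by
  classical
  have hex : ∃ d, 0 < d ∧ (h d < c ∨ B ≤ S d) := ⟨n, hn, Or.inl hend⟩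
  obtain ⟨h1, h2⟩ := Nat.find_spec hex
  set d := Nat.find hex with hd
  have hdn : d ≤ n := Nat.find_min' hex ⟨hn, Or.inl hend⟩
  have hbefore : ∀ k, 0 < k → k < d → c ≤ h k ∧ S k < B := by
    intro k hk hkd
    have := Nat.find_min hex hkd
    push Not at this
    exact this hk
  refine ⟨d, h1, hdn, ?_, fun k hk hkd => (hbefore k hk hkd).1, h2⟩
  have h3 := hS (d - 1) (by omega)
  rw [Nat.sub_add_cancel (by omega)] at h3
  rcases Nat.eq_zero_or_pos (d - 1) with h4 | h4
  · rw [h4] at h3; linarith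
  · have := (hbefore (d - 1) h4 (by omega)).2
    linarith

theorem finish (hX : GeodesicSpace X) {b : ℝ → X} (hb : IsRay b) {q Q : ℝ} (hq : 1 ≤ q)
    (hQ : 0 ≤ Q) {N : ℕ} {z : ℕ → X} {T : ℕ → ℝ} (hD : Data b q Q N z T) {R D : ℝ}
    (hR : q + Q + 1 ≤ R) (hDR : R ≤ D) {i j i0 : ℕ} (hij : i < j) (hj : j ≤ N)
    (hH : ∀ k, i < k → k < j → 2 * R ≤ hh b (z k)) (hHi : hh b (z i) ≤ 2 * D)
    (hHj : hh b (z j) ≤ 2 * D) (hT : T j - T i ≤ 2 * (5 * q * D + 1))
    (hi0 : dist (z i) (z i0) ≤ q * (5 * q * D + 1) + Q)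
    (hj0 : dist (z j) (z i0) ≤ q * (5 * q * D + 1) + Q)
    (hdist : 8 * R + hh b (z i) + hh b (z j) + 2 ≤ dist (z i) (z j)) :
    ∃ m l : ℝ, 0 < m ∧ R < m ∧ m ≤ dist (b 0) (z i0) + (5 * q ^ 2 + q + Q + 3) * D ∧
      l ≤ (12 + 10 * q ^ 2 + 2 * q + Q + (q + Q) * (10 * q + 4)) * D ∧
      PathIn {x | R ≤ dist x (b m)} l (b (m - R)) (b (m + R)) := by
  obtain ⟨p, hp, hpd⟩ := hh_near b (z i)
  obtain ⟨p', hp', hpd'⟩ := hh_near b (z j)
  have hD1 : 1 ≤ D := by linarith
  have hq0 : 0 < q := by linarith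
  have hpp : dist (b p) (b p') = |p - p'| := hb p p' hp hp'
  have e1 : 8 * R ≤ |p - p'| := by
    have h1 := dist_triangle4 (z i) (b p) (b p') (z j)
    rw [dist_comm (b p') (z j)] at h1
    linarith
  have e2 : |p - p'| ≤ dist (z i) (z j) + (2 * D + 1) + (2 * D + 1) := by
    have h1 := dist_triangle4 (b p) (z i) (z j) (b p')
    rw [dist_comm (b p) (z i)] at h1
    linarith
  have e3 : dist (z i) (z j) ≤ q * (2 * (5 * q * D + 1)) + Q := by
    have h1 := hD.up i j hij.le hj
    have h2 := mul_le_mul_of_nonneg_left hT hq0.le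
    linarith
  have e4 : (j : ℝ) - i ≤ 2 * (5 * q * D + 1) + 2 := by
    have h1 := hD.idx i j hij.le hj
    linarith
  have hpn : ∀ (y : X) (s : ℝ), 0 ≤ s → dist y (b s) ≤ 2 * D + 1 →
      dist y (z i0) ≤ q * (5 * q * D + 1) + Q →
      s ≤ dist (b 0) (z i0) + (5 * q ^ 2 + q + Q + 3) * D := by
    intro y s hs h1 h2
    have h3 : dist (b 0) (b s) = s := by
      rw [hb 0 s le_rfl hs, zero_sub, abs_neg, abs_of_nonneg hs]
    have h4 := dist_triangle4 (b 0) (z i0) y (b s)
    rw [dist_comm (z i0) y] at h4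
    have h5 : q ≤ q * D := by nlinarith
    have h6 : Q ≤ Q * D := by nlinarith
    nlinarith
  have hb1 := hpn (z i) p hp (by linarith) hi0
  have hb2 := hpn (z j) p' hp' (by linarith) hj0
  have hstep : ∀ k, i ≤ k → k < j → dist (z k) (z (k + 1)) ≤ q + Q := by
    intro k _ hk
    have h1 := hD.up k (k + 1) (Nat.le_succ k) (by omega)
    have h2 := hD.step k (by omega)
    have h3 : q * (T (k + 1) - T k) ≤ q * 1 := mul_le_mul_of_nonneg_left (by linarith) hq0.le
    linarith
  have hσ : 0 ≤ q + Q := by linarith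
  have hlen : dist (z i) (b p) + (q + Q) * ((j : ℝ) - i) + dist (z j) (b p') + |p - p'| ≤
      (12 + 10 * q ^ 2 + 2 * q + Q + (q + Q) * (10 * q + 4)) * D := by
    have h1 : (q + Q) * ((j : ℝ) - i) ≤ (q + Q) * (2 * (5 * q * D + 1) + 2) :=
      mul_le_mul_of_nonneg_left e4 hσ
    have h2 : (q + Q) * (2 * (5 * q * D + 1) + 2) ≤ (q + Q) * ((10 * q + 4) * D) :=
      mul_le_mul_of_nonneg_left (by nlinarith) hσ
    have h3 : q ≤ q * D := by nlinarith
    have h4 : Q ≤ Q * D := by nlinarith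
    nlinarith
  have hmm : 0 ≤ (p + p') / 2 := by linarith
  rcases le_total p p' with h | h
  · rw [abs_sub_comm, abs_of_nonneg (by linarith)] at e1 hlen
    have h1 := mid_path hX (i := i) (j := j) hij.le hp hp' hmm hb hpd hpd' hstep hσ
      (by linarith) hH
      (by
        have : p - (p + p') / 2 = -((p' - p) / 2) := by ring
        rw [this, abs_neg, abs_of_nonneg (by linarith)]; linarith)
      (by
        have : p' - (p + p') / 2 = (p' - p) / 2 := by ring
        rw [this, abs_of_nonneg (by linarith)]; linarith)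
    exact ⟨(p + p') / 2, _, by linarith, by linarith, by linarith, hlen,
      ext_path hb hp (by linarith) e1 h1⟩
  · rw [abs_of_nonneg (by linarith)] at e1 hlen
    have h1 := mid_path hX (i := i) (j := j) hij.le hp hp' hmm hb hpd hpd' hstep hσ
      (by linarith) hH
      (by
        have : p - (p + p') / 2 = (p - p') / 2 := by ring
        rw [this, abs_of_nonneg (by linarith)]; linarith)
      (by
        have : p' - (p + p') / 2 = -((p - p') / 2) := by ring
        rw [this, abs_neg, abs_of_nonneg (by linarith)]; linarith)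
    have h2 := h1.symm
    rw [add_comm p p'] at h2
    have h3 := ext_path hb hp' (by linarith) e1 h2
    exact ⟨(p' + p) / 2, _, by linarith, by linarith, by linarith, hlen, h3⟩

theorem core (hX : GeodesicSpace X) {b : ℝ → X} (hb : IsRay b) {q Q : ℝ} (hq : 1 ≤ q)
    (hQ : 0 ≤ Q) {N : ℕ} {z : ℕ → X} {T : ℕ → ℝ} (hD : Data b q Q N z T) {R D : ℝ}
    (hR : q + Q + 1 ≤ R) (hDR : D = 16 * q ^ 2 * R) {i0 : ℕ} (hi0 : i0 ≤ N)
    (hHD : hh b (z i0) = D)
    (hnear : ∀ k ≤ N, |T k - T i0| ≤ 5 * q * D + 1 → hh b (z k) ≤ 2 * D) :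
    ∃ m l : ℝ, 0 < m ∧ R < m ∧ m ≤ dist (b 0) (z i0) + (5 * q ^ 2 + q + Q + 3) * D ∧
      l ≤ (12 + 10 * q ^ 2 + 2 * q + Q + (q + Q) * (10 * q + 4)) * D ∧
      PathIn {x | R ≤ dist x (b m)} l (b (m - R)) (b (m + R)) := by
  have hq0 : 0 < q := by linarith
  have hq2 : 1 ≤ q ^ 2 := by nlinarith
  have hR0 : 0 < R := by linarith
  have hDge : 16 * R ≤ D := by
    rw [hDR]; nlinarith
  have hD0 : 0 < D := by linarith
  have hB : 0 ≤ 5 * q * D := by positivity
  have hi00 : 0 < i0 := by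
    rcases Nat.eq_zero_or_pos i0 with h | h
    · rw [h, hD.left] at hHD; linarith
    · exact h
  have hi0N : i0 < N := by
    rcases hi0.lt_or_eq with h | h
    · exact h
    · rw [h, hD.right] at hHD; linarith
  -- right exit
  obtain ⟨d1, hd1, hd1n, hd1S, hd1H, hd1c⟩ := exit_time (n := N - i0) (h := fun k => hh b (z (i0 + k)))
    (S := fun k => T (i0 + k) - T i0) (c := 2 * R) (B := 5 * q * D) (by omega)
    (by simpa using hB)
    (fun k hk => by
      have := hD.step (i0 + k) (by omega)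
      have e : i0 + (k + 1) = i0 + k + 1 := by ring
      rw [e]; linarith)
    (by
      have e : i0 + (N - i0) = N := by omega
      rw [e, hD.right]; linarith)
  -- left exit
  obtain ⟨d2, hd2, hd2n, hd2S, hd2H, hd2c⟩ := exit_time (n := i0) (h := fun k => hh b (z (i0 - k)))
    (S := fun k => T i0 - T (i0 - k)) (c := 2 * R) (B := 5 * q * D) hi00
    (by simpa using hB)
    (fun k hk => by
      have := hD.step (i0 - (k + 1)) (by omega)
      have e : i0 - (k + 1) + 1 = i0 - k := by omega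
      rw [e] at this; linarith)
    (by
      rw [Nat.sub_self, hD.left]; linarith)
  set e := i0 + d1 with he
  set a := i0 - d2 with ha
  have heN : e ≤ N := by omega
  have hTe := hD.mono i0 e (by omega) heN
  have hTa := hD.mono a i0 (by omega) hi0
  have hHe : hh b (z e) ≤ 2 * D := hnear e heN (by rw [abs_of_nonneg (by linarith)]; linarith)
  have hHa : hh b (z a) ≤ 2 * D := hnear a (by omega) (by
    rw [abs_sub_comm, abs_of_nonneg (by linarith)]; linarith)
  have hHr : ∀ k, i0 < k → k < e → 2 * R ≤ hh b (z k) := by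
    intro k h1 h2
    have := hd1H (k - i0) (by omega) (by omega)
    rwa [show i0 + (k - i0) = k by omega] at this
  have hHl : ∀ k, a < k → k < i0 → 2 * R ≤ hh b (z k) := by
    intro k h1 h2
    have := hd2H (i0 - k) (by omega) (by omega)
    rwa [show i0 - (i0 - k) = k by omega] at this
  have hde : dist (z e) (z i0) ≤ q * (5 * q * D + 1) + Q := by
    rw [dist_comm]
    have h1 := hD.up i0 e (by omega) heN
    have h2 := mul_le_mul_of_nonneg_left hd1S hq0.le
    linarith
  have hda : dist (z a) (z i0) ≤ q * (5 * q * D + 1) + Q := by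
    have h1 := hD.up a i0 (by omega) hi0
    have h2 := mul_le_mul_of_nonneg_left hd2S hq0.le
    linarith
  have hdii : dist (z i0) (z i0) ≤ q * (5 * q * D + 1) + Q := by
    rw [dist_self]; positivity
  by_cases c1 : 5 * q * D ≤ T e - T i0
  · -- case 2
    refine finish hX hb hq hQ hD hR (by linarith) (i := i0) (j := e) (i0 := i0) (by omega) heN hHr
      (by linarith) hHe (by linarith) hdii hde ?_
    have h1 := hD.low i0 e (by omega) heN
    have h2 : 5 * D ≤ (T e - T i0) / q := by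
      rw [le_div_iff₀ hq0]; linarith
    linarith
  · by_cases c2 : 5 * q * D ≤ T i0 - T a
    · refine finish hX hb hq hQ hD hR (by linarith) (i := a) (j := i0) (i0 := i0) (by omega) hi0 hHl
        hHa (by linarith) (by linarith) hda hdii ?_
      have h1 := hD.low a i0 (by omega) hi0
      have h2 : 5 * D ≤ (T i0 - T a) / q := by
        rw [le_div_iff₀ hq0]; linarith
      linarith
    · have hHe2 : hh b (z e) < 2 * R := hd1c.resolve_right c1
      have hHa2 : hh b (z a) < 2 * R := hd2c.resolve_right c2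
      have hHm : ∀ k, a < k → k < e → 2 * R ≤ hh b (z k) := by
        intro k h1 h2
        rcases lt_trichotomy k i0 with h | h | h
        · exact hHl k h1 h
        · rw [h, hHD]; linarith
        · exact hHr k h h2
      refine finish hX hb hq hQ hD hR (by linarith) (i := a) (j := e) (i0 := i0) (by omega) heN hHm
        hHa hHe (by linarith) hda hde ?_
      have h1 := hD.low a e (by omega) heN
      have u1 := hD.up i0 e (by omega) heN
      have u2 := hD.up a i0 (by omega) hi0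
      have l1 := hh_lip b (z i0) (z e)
      have l2 := hh_lip b (z i0) (z a)
      rw [dist_comm (z i0) (z a)] at l2
      have side : ∀ τ : ℝ, D - 2 * R - Q ≤ q * τ → 14 * R - Q ≤ τ / q := by
        intro τ hτ
        rw [le_div_iff₀ hq0]
        have h3 : q * ((14 * R - Q) * q) ≤ q * τ := by
          have h4 : 16 * q ^ 2 * R - 2 * R - Q ≤ q * τ := by rw [← hDR]; exact hτ
          have h5 : 0 ≤ (q ^ 2 - 1) * (2 * R + Q) := mul_nonneg (by linarith) (by linarith)
          nlinarith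
        exact le_of_mul_le_mul_left h3 hq0
      have s1 := side (T e - T i0) (by linarith)
      have s2 := side (T i0 - T a) (by linarith)
      have s3 : (T e - T a) / q = (T e - T i0) / q + (T i0 - T a) / q := by ring
      rw [s3] at h1
      linarith

/-- the inequality obtained from `SL` -/
theorem star (hX : GeodesicSpace X) {κ : ℝ → ℝ} (hκ : Gauge κ) {b : ℝ → X} (hb : IsRay b)
    (hSL : SL κ b) {q Q : ℝ} (hq : 1 ≤ q) (hQ : 0 ≤ Q) : ∃ A : ℝ, 0 < A ∧
      ∀ (N : ℕ) (z : ℕ → X) (T : ℕ → ℝ), Data b q Q N z T → ∀ i0 ≤ N,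
        16 * q ^ 2 * (q + Q + 1) ≤ hh b (z i0) →
        (∀ k ≤ N, |T k - T i0| ≤ 5 * q * hh b (z i0) + 1 → hh b (z k) ≤ 2 * hh b (z i0)) →
        hh b (z i0) < A * κ (dist (b 0) (z i0) + (5 * q ^ 2 + q + Q + 3) * hh b (z i0)) := by
  set C1 : ℝ := 12 + 10 * q ^ 2 + 2 * q + Q + (q + Q) * (10 * q + 4) with hC1
  have hC10 : 0 < C1 := by rw [hC1]; positivity
  obtain ⟨r0, hr0, hr⟩ := hSL (C1 * (16 * q ^ 2) + 1) (by positivity)
  refine ⟨16 * q ^ 2 * r0, by positivity, ?_⟩
  intro N z T hD i0 hi0 hbig hnear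
  set D := hh b (z i0) with hDdef
  have hq16 : 0 < 16 * q ^ 2 := by positivity
  set R : ℝ := D / (16 * q ^ 2) with hRdef
  have hDR : D = 16 * q ^ 2 * R := by rw [hRdef]; field_simp
  have hR : q + Q + 1 ≤ R := by
    rw [hRdef, le_div_iff₀ hq16]; linarith
  obtain ⟨m, l, hm, hRm, hmle, hl, hpath⟩ := core hX hb hq hQ hD hR hDR hi0 rfl hnear
  have hR0 : 0 < R := by linarith
  by_contra hcon
  push Not at hcon
  have hmono : κ m ≤ κ (dist (b 0) (z i0) + (5 * q ^ 2 + q + Q + 3) * D) :=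
    hκ.mono (Set.mem_Ici.mpr hm.le) (Set.mem_Ici.mpr (hm.le.trans hmle)) hmle
  have h1 : r0 * κ m ≤ R := by
    have h2 : 16 * q ^ 2 * (r0 * κ m) ≤ 16 * q ^ 2 * R := by
      rw [← hDR]
      calc 16 * q ^ 2 * (r0 * κ m) = 16 * q ^ 2 * r0 * κ m := by ring
      _ ≤ 16 * q ^ 2 * r0 * κ (dist (b 0) (z i0) + (5 * q ^ 2 + q + Q + 3) * D) :=
        mul_le_mul_of_nonneg_left hmono (by positivity)
      _ ≤ D := hcon
    exact le_of_mul_le_mul_left h2 hq16
  have h3 := hr m R hm h1 hRm l hpath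
  have h4 : C1 * D = C1 * (16 * q ^ 2) * R := by rw [hDR]; ring
  nlinarith

theorem data_morse (hX : GeodesicSpace X) {κ : ℝ → ℝ} (hκ : Gauge κ) {b : ℝ → X} (hb : IsRay b)
    (hSL : SL κ b) {q Q : ℝ} (hq : 1 ≤ q) (hQ : 0 ≤ Q) : ∃ M : ℝ, 0 ≤ M ∧
      ∀ (N : ℕ) (z : ℕ → X) (T : ℕ → ℝ), Data b q Q N z T → ∀ k ≤ N,
        hh b (z k) ≤ M * κ (dist (b 0) (z k)) := by
  obtain ⟨A, hA, hstar⟩ := star hX hκ hb hSL hq hQ
  set C2 : ℝ := 5 * q ^ 2 + q + Q + 3 with hC2
  have hC20 : 0 < C2 := by rw [hC2]; positivity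
  set L' : ℝ := q * (5 * q + 1) + Q with hL'
  have hL'1 : 1 ≤ L' := by rw [hL']; nlinarith
  have hL'0 : 0 < L' := by linarith
  set D0 : ℝ := 16 * q ^ 2 * (q + Q + 1) with hD0
  -- sublinearity
  obtain ⟨D1, hD1⟩ : ∃ D1 : ℝ, ∀ D, D1 ≤ D → 1 ≤ D → A * κ ((2 * L' + C2) * D) ≤ D := by
    have hE : 0 < 2 * L' + C2 := by linarith
    have h1 : ∀ᶠ x in atTop, κ x / x < 1 / (A * (2 * L' + C2)) :=
      hκ.sublinear.eventually (gt_mem_nhds (by positivity))
    obtain ⟨x0, hx0⟩ := (h1.and (eventually_gt_atTop 0)).exists_forall_of_atTop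
    refine ⟨x0 / (2 * L' + C2), fun D hDD hD1 => ?_⟩
    rw [div_le_iff₀ hE] at hDD
    obtain ⟨h2, h3⟩ := hx0 ((2 * L' + C2) * D) (by linarith)
    rw [div_lt_iff₀ h3] at h2
    have h4 : A * κ ((2 * L' + C2) * D) ≤
        A * (1 / (A * (2 * L' + C2)) * ((2 * L' + C2) * D)) :=
      mul_le_mul_of_nonneg_left h2.le hA.le
    have h5 : A * (1 / (A * (2 * L' + C2)) * ((2 * L' + C2) * D)) = D := by
      field_simp
    linarith
  set M1 : ℝ := 2 * max (max D0 D1) 1 with hM1
  have hM1a : D0 ≤ M1 / 2 := by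
    rw [hM1]; linarith [le_max_left (max D0 D1) 1, le_max_left D0 D1]
  have hM1b : D1 ≤ M1 / 2 := by
    rw [hM1]; linarith [le_max_left (max D0 D1) 1, le_max_right D0 D1]
  have hM1c : 1 ≤ M1 / 2 := by
    rw [hM1]; linarith [le_max_right (max D0 D1) 1]
  set M : ℝ := max M1 (A * (1 + C2)) with hM
  have hMM1 : M1 ≤ M := le_max_left _ _
  have hMA : A * (1 + C2) ≤ M := le_max_right _ _
  refine ⟨M, by linarith, ?_⟩
  intro N z T hD k0 hk0
  by_contra hcon
  push Not at hcon
  -- neighbours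
  have hnb : ∀ i0 ≤ N, 1 ≤ hh b (z i0) → ∀ k ≤ N, |T k - T i0| ≤ 5 * q * hh b (z i0) + 1 →
      dist (z k) (z i0) ≤ L' * hh b (z i0) := by
    intro i0 hi0 h1 k hk h2
    have h3 : dist (z k) (z i0) ≤ q * |T k - T i0| + Q := by
      rcases le_total k i0 with h | h
      · have a1 := hD.up k i0 h hi0
        have a2 := hD.mono k i0 h hi0
        rw [abs_sub_comm, abs_of_nonneg (by linarith)]; exact a1
      · have a1 := hD.up i0 k h hk
        have a2 := hD.mono i0 k h hk
        rw [abs_of_nonneg (by linarith), dist_comm]; exact a1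
    have h4 : q * |T k - T i0| ≤ q * (5 * q * hh b (z i0) + 1) :=
      mul_le_mul_of_nonneg_left h2 (by linarith)
    have h5 : q ≤ q * hh b (z i0) := by nlinarith
    have h6 : Q ≤ Q * hh b (z i0) := by nlinarith
    rw [hL']
    nlinarith
  have hne : (Finset.range (N + 1)).Nonempty := ⟨0, by simp⟩
  by_cases hcase : ∃ k ≤ N, M1 ≤ hh b (z k) ∧ dist (b 0) (z k) ≤ L' * hh b (z k)
  · -- case I
    obtain ⟨k1, hk1, hk1a, hk1b⟩ := hcase
    obtain ⟨i0, hi0, hmax⟩ := Finset.exists_max_image (Finset.range (N + 1))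
      (fun k => hh b (z k) - dist (b 0) (z k) / (2 * L')) hne
    rw [Finset.mem_range] at hi0
    have hi0' : i0 ≤ N := by omega
    have h1 := hmax k1 (by rw [Finset.mem_range]; omega)
    have h2 : dist (b 0) (z k1) / (2 * L') ≤ hh b (z k1) / 2 := by
      rw [div_le_iff₀ (by positivity)]; linarith
    have h3 : 0 ≤ dist (b 0) (z i0) / (2 * L') := by positivity
    have hDbig : M1 / 2 ≤ hh b (z i0) := by linarith
    have hnrm : dist (b 0) (z i0) ≤ 2 * L' * hh b (z i0) := by
      have h4 : dist (b 0) (z i0) / (2 * L') ≤ hh b (z i0) := by linarith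
      rw [div_le_iff₀ (by positivity)] at h4
      linarith
    have hnear : ∀ k ≤ N, |T k - T i0| ≤ 5 * q * hh b (z i0) + 1 →
        hh b (z k) ≤ 2 * hh b (z i0) := by
      intro k hk hkT
      have h4 := hnb i0 hi0' (by linarith) k hk hkT
      have h5 := hmax k (by rw [Finset.mem_range]; omega)
      have h6 := dist_triangle (b 0) (z i0) (z k)
      rw [dist_comm (z i0) (z k)] at h6
      have h7 : dist (b 0) (z k) / (2 * L') ≤
          dist (b 0) (z i0) / (2 * L') + hh b (z i0) / 2 := by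
        rw [div_le_iff₀ (by positivity), add_mul, div_mul_cancel₀ _ (by positivity)]
        linarith
      linarith [hh_nonneg b (z i0)]
    have h8 := hstar N z T hD i0 hi0' (by linarith) hnear
    have h9 : κ (dist (b 0) (z i0) + C2 * hh b (z i0)) ≤ κ ((2 * L' + C2) * hh b (z i0)) := by
      apply hκ.mono
      · exact Set.mem_Ici.mpr (add_nonneg dist_nonneg (mul_nonneg hC20.le (hh_nonneg _ _)))
      · exact Set.mem_Ici.mpr (mul_nonneg (by linarith) (hh_nonneg _ _))
      · linarith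
    have h10 := hD1 (hh b (z i0)) (by linarith) (by linarith)
    have h11 := mul_le_mul_of_nonneg_left h9 hA.le
    linarith
  · -- case II
    push Not at hcase
    obtain ⟨i0, hi0, hmax⟩ := Finset.exists_max_image (Finset.range (N + 1))
      (fun k => hh b (z k) - M * κ (dist (b 0) (z k))) hne
    rw [Finset.mem_range] at hi0
    have hi0' : i0 ≤ N := by omega
    have h1 := hmax k0 (by rw [Finset.mem_range]; omega)
    have h2 : M * κ (dist (b 0) (z i0)) < hh b (z i0) := by linarith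
    have hκ1 := hκ.one_le (dist (b 0) (z i0)) dist_nonneg
    have hM0 : 0 < M := by linarith
    have h3 : M ≤ M * κ (dist (b 0) (z i0)) := by nlinarith
    have h4 : L' * hh b (z i0) < dist (b 0) (z i0) := hcase i0 hi0' (by linarith)
    have hD1' : 1 ≤ hh b (z i0) := by linarith
    have ha0 : 0 < dist (b 0) (z i0) := by nlinarith
    have hnear : ∀ k ≤ N, |T k - T i0| ≤ 5 * q * hh b (z i0) + 1 →
        hh b (z k) ≤ 2 * hh b (z i0) := by
      intro k hk hkT
      have h5 := hnb i0 hi0' hD1' k hk hkT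
      have h6 := hmax k (by rw [Finset.mem_range]; omega)
      have h7 := dist_triangle (b 0) (z i0) (z k)
      rw [dist_comm (z i0) (z k)] at h7
      have h8 : κ (dist (b 0) (z k)) ≤ 2 * κ (dist (b 0) (z i0)) := by
        calc κ (dist (b 0) (z k)) ≤ κ (2 * dist (b 0) (z i0)) :=
              hκ.mono (Set.mem_Ici.mpr dist_nonneg) (Set.mem_Ici.mpr (by linarith)) (by linarith)
        _ ≤ 2 * κ (dist (b 0) (z i0)) := hκ.scale (by norm_num) dist_nonneg
      have h9 := mul_le_mul_of_nonneg_left h8 hM0.le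
      linarith
    have h8 := hstar N z T hD i0 hi0' (by linarith) hnear
    have h9 : κ (dist (b 0) (z i0) + C2 * hh b (z i0)) ≤
        (1 + C2) * κ (dist (b 0) (z i0)) := by
      have h10 : hh b (z i0) ≤ dist (b 0) (z i0) := by nlinarith
      calc κ (dist (b 0) (z i0) + C2 * hh b (z i0)) ≤ κ ((1 + C2) * dist (b 0) (z i0)) := by
            apply hκ.mono
            · exact Set.mem_Ici.mpr (add_nonneg dist_nonneg (mul_nonneg hC20.le (hh_nonneg _ _)))
            · exact Set.mem_Ici.mpr (mul_nonneg (by linarith) dist_nonneg)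
            · nlinarith
      _ ≤ _ := hκ.scale (by linarith) dist_nonneg
    have h10 := mul_le_mul_of_nonneg_left h9 hA.le
    have h11 : A * (1 + C2) * κ (dist (b 0) (z i0)) ≤ M * κ (dist (b 0) (z i0)) :=
      mul_le_mul_of_nonneg_right hMA (by linarith)
    linarith

end R467.KM
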