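import Mathlib
import Pool.Agent.R467.KM.PartThree

/-! A ray is Morse if and only if its lower divergence is superlinear. -/

set_option autoImplicit false

namespace R467.KM

open Set Filter Topology

variable {X : Type*} [MetricSpace X]

theorem hh_zero {b : ℝ → X} {x : X} (hx : x ∈ b '' Ici 0) : hh b x = 0 :=
  Metric.infDist_zero_of_mem hx

theorem discretize {b : ℝ → X} {q Q : ℝ} {β : ℝ → X} {s t : ℝ}
    (hqg : IsQuasiGeodesic q Q β s t) (hs : β s ∈ b '' Ici 0) (ht : β t ∈ b '' Ici 0)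
    {τ : ℝ} (hτ : τ ∈ Icc s t) :
    ∃ (N : ℕ) (z : ℕ → X) (T : ℕ → ℝ), Data b q Q N z T ∧ ∃ k ≤ N, z k = β τ := by
  obtain ⟨hτ1, hτ2⟩ := hτ
  have hst : s ≤ t := hτ1.trans hτ2
  set K0 := ⌈τ - s⌉₊ with hK0
  set K1 := ⌈t - τ⌉₊ with hK1
  have a1 : τ - s ≤ K0 := Nat.le_ceil _
  have a2 : (K0 : ℝ) < τ - s + 1 := Nat.ceil_lt_add_one (by linarith)
  have b1 : t - τ ≤ K1 := Nat.le_ceil _
  have b2 : (K1 : ℝ) < t - τ + 1 := Nat.ceil_lt_add_one (by linarith)
  set T : ℕ → ℝ := fun k => max s (min t (τ - K0 + k)) with hT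
  have hTmem : ∀ k, T k ∈ Icc s t := fun k => ⟨le_max_left _ _, max_le hst (min_le_left _ _)⟩
  have hmono : ∀ i j, i ≤ j → T i ≤ T j := by
    intro i j hij
    have : (i : ℝ) ≤ j := by exact_mod_cast hij
    exact max_le_max le_rfl (min_le_min le_rfl (by linarith))
  refine ⟨K0 + K1, fun k => β (T k), T, ⟨fun i j hij _ => hmono i j hij, ?_, ?_, ?_, ?_, ?_, ?_⟩,
    K0, Nat.le_add_right _ _, ?_⟩
  · intro i _
    simp only [hT]
    push_cast
    apply max_le
    · linarith [le_max_left s (min t (τ - K0 + i))]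
    · have h1 : min t (τ - K0 + (i + 1)) ≤ min t (τ - K0 + i) + 1 := by
        rw [← min_add_add_right]
        exact min_le_min (by linarith) (by linarith)
      linarith [le_max_right s (min t (τ - K0 + i))]
  · intro i j hij hj
    have hj' : (j : ℝ) ≤ K0 + K1 := by exact_mod_cast hj
    have hi0 : (0 : ℝ) ≤ i := Nat.cast_nonneg i
    have h1 : τ - K0 + j - 1 ≤ T j := by
      simp only [hT]
      apply le_max_of_le_right
      apply le_min <;> linarith
    have h2 : T i ≤ τ - K0 + i + 1 := by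
      simp only [hT]
      apply max_le
      · linarith
      · exact (min_le_right _ _).trans (by linarith)
    linarith
  · intro i j hij _
    have h1 := (hqg (T i) (hTmem i) (T j) (hTmem j)).1
    rwa [abs_sub_comm, abs_of_nonneg (by linarith [hmono i j hij])] at h1
  · intro i j hij _
    have h1 := (hqg (T i) (hTmem i) (T j) (hTmem j)).2
    rwa [abs_sub_comm, abs_of_nonneg (by linarith [hmono i j hij])] at h1
  · have h1 : T 0 = s := by
      simp only [hT]
      apply max_eq_left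
      exact (min_le_right _ _).trans (by push_cast; linarith)
    simp only [h1]
    exact hh_zero hs
  · have h1 : T (K0 + K1) = t := by
      simp only [hT]
      rw [min_eq_left (by push_cast; linarith), max_eq_right hst]
    simp only [h1]
    exact hh_zero ht
  · have h1 : T K0 = τ := by
      simp only [hT]
      rw [sub_add_cancel, min_eq_right hτ2, max_eq_right hτ1]
    simp only [h1]

theorem morse_of_SL (hX : GeodesicSpace X) {κ : ℝ → ℝ} (hκ : Gauge κ) {b : ℝ → X} (hb : IsRay b)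
    (hSL : SL κ b) : IsMorse κ b := by
  have h : ∀ q Q : ℝ, ∃ M : ℝ, 0 ≤ M ∧ (1 ≤ q → 0 ≤ Q → ∀ (β : ℝ → X) (s t : ℝ),
    s ≤ t → IsQuasiGeodesic q Q β s t → β s ∈ b '' Ici 0 → β t ∈ b '' Ici 0 →
      ∀ u ∈ Icc s t, Metric.infDist (β u) (b '' Ici 0) ≤ M * κ (dist (b 0) (β u))) := by
    intro q Q
    by_cases hq : 1 ≤ q
    · by_cases hQ : 0 ≤ Q
      · obtain ⟨M, hM0, hM⟩ := data_morse hX hκ hb hSL hq hQ
        refine ⟨M, hM0, fun _ _ β s t _ hqg hs ht u hu => ?_⟩
        obtain ⟨N, z, T, hD, k, hk, hz⟩ := discretize hqg hs ht hu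
        have := hM N z T hD k hk
        rwa [hz] at this
      · exact ⟨0, le_rfl, fun _ h => absurd h hQ⟩
    · exact ⟨0, le_rfl, fun h => absurd h hq⟩
  choose m hm0 hm using h
  exact ⟨m, hm0, fun q Q hq hQ => hm q Q hq hQ⟩

theorem morseCont_of_morse {κ : ℝ → ℝ} {b : ℝ → X} (h : IsMorse κ b) : IsMorseCont κ b := by
  obtain ⟨m, hm0, hm⟩ := h
  exact ⟨m, hm0, fun q Q hq hQ β s t hst _ => hm q Q hq hQ β s t hst⟩

theorem SL_of_superlinear {κ : ℝ → ℝ} (hκ : Gauge κ) {b : ℝ → X}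
    (h : Superlinear κ b) : SL κ b := by
  intro C hC
  have h1 := (ENNReal.tendsto_nhds_top_iff_nnreal.mp h) C.toNNReal
  obtain ⟨r1, hr1⟩ := h1.exists_forall_of_atTop
  refine ⟨max r1 1, lt_of_lt_of_le one_pos (le_max_right _ _), ?_⟩
  rintro t R ht hRt hR l ⟨hl, f, f0, f1, hf, hS⟩
  have hκt := hκ.one_le t ht.le
  have hκ0 : 0 < κ t := by linarith
  set r : ℝ := R / κ t with hr
  have hrR : r * κ t = R := by rw [hr]; field_simp
  have hrge : max r1 1 ≤ r := by rw [hr, le_div_iff₀ hκ0]; exact hRt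
  have hr0 : 0 < r := lt_of_lt_of_le one_pos ((le_max_right _ _).trans hrge)
  have h2 := hr1 r ((le_max_left _ _).trans hrge)
  -- the path
  set γ : ℝ → X := fun u => f (l * u) with hγ
  have hmem : ∀ u ∈ Icc (0 : ℝ) 1, l * u ∈ Icc (0 : ℝ) l := by
    intro u hu
    refine ⟨mul_nonneg hl hu.1, ?_⟩
    have := mul_le_mul_of_nonneg_left hu.2 hl
    linarith
  have hlip : LipschitzOnWith ⟨l, hl⟩ γ (Icc 0 1) := by
    apply LipschitzOnWith.of_dist_le_mul
    intro u hu v hv
    have h3 := hf _ (hmem u hu) _ (hmem v hv)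
    have h4 : l * u - l * v = l * (u - v) := by ring
    rw [h4, abs_mul, abs_of_nonneg hl] at h3
    rw [Real.dist_eq]
    exact h3
  have hav : γ ∈ Avoiding κ b r t := by
    refine ⟨hlip.continuousOn, ?_, ?_, ?_⟩
    · simp only [hγ, mul_zero]; rw [f0, hrR]
    · simp only [hγ, mul_one]; rw [f1, hrR]
    · intro u hu hball
      have h3 : R ≤ dist (f (l * u)) (b t) := hS _ (hmem u hu)
      rw [Metric.mem_ball, hrR] at hball
      simp only [hγ] at hball
      linarith
  have hvar : eVariationOn γ (Icc 0 1) ≤ ENNReal.ofReal l := by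
    have h3 := hlip.comp_eVariationOn_le (g := (id : ℝ → ℝ)) (s := Icc (0 : ℝ) 1) (fun x hx => hx)
    rw [eVariationOn_id_Icc, sub_zero, ENNReal.ofReal_one, mul_one] at h3
    rw [ENNReal.ofReal_eq_coe_nnreal hl]
    exact h3
  have h3 : rho κ b r t ≤ ENNReal.ofReal l := (iInf₂_le γ hav).trans hvar
  have h4 : lowerDiv κ b r ≤ ENNReal.ofReal l / ENNReal.ofReal (κ t) := by
    refine (iInf₂_le t ⟨ht.le, by rw [hrR]; exact hR⟩).trans ?_
    exact ENNReal.div_le_div_right h3 _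
  have h5 : ENNReal.ofReal C <
      ENNReal.ofReal l / ENNReal.ofReal (κ t) / ENNReal.ofReal r :=
    lt_of_lt_of_le h2 (ENNReal.div_le_div_right h4 _)
  rw [← ENNReal.ofReal_div_of_pos hκ0, ← ENNReal.ofReal_div_of_pos hr0] at h5
  have h6 := ENNReal.ofReal_lt_ofReal_iff_of_nonneg hC.le |>.mp h5
  rw [lt_div_iff₀ hr0, lt_div_iff₀ hκ0, mul_assoc, hrR] at h6
  exact h6.le

theorem superlinear_of_morseCont (hX : GeodesicSpace X) {κ : ℝ → ℝ} (hκ : Gauge κ) {b : ℝ → X}
    (hb : IsRay b) (hM : IsMorseCont κ b) : Superlinear κ b := by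
  apply ENNReal.tendsto_nhds_top
  intro n
  obtain ⟨r0, hr0, hr⟩ := part_one hX hκ hb hM (n + 1)
  filter_upwards [eventually_ge_atTop r0] with r hrr
  have hrpos : 0 < r := by linarith
  have h1 : ((n + 1 : ℕ) : ENNReal) ≤ lowerDiv κ b r / ENNReal.ofReal r := by
    rw [ENNReal.le_div_iff_mul_le (Or.inl (by simpa using hrpos)) (Or.inl ENNReal.ofReal_ne_top)]
    refine le_iInf₂ fun t ht => ?_
    obtain ⟨ht0, htr⟩ := ht
    have hκt := hκ.one_le t ht0
    have hκ0 : 0 < κ t := by linarith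
    rw [ENNReal.le_div_iff_mul_le (Or.inl (by simpa using hκ0)) (Or.inl ENNReal.ofReal_ne_top)]
    refine le_iInf₂ fun γ hγ => ?_
    have h2 := hr r hrr t ht0 htr γ hγ
    refine le_trans (le_of_eq ?_) h2
    rw [ENNReal.ofReal_mul (by positivity), ENNReal.ofReal_mul hrpos.le, mul_assoc,
      ENNReal.ofReal_natCast]
  refine lt_of_lt_of_le ?_ h1
  exact_mod_cast Nat.lt_succ_self n

end R467.KM
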